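import Pool.Agent.W586.SK.Stm

set_option autoImplicit false

namespace Pool.Agent.W154.SK

open Pool.Agent.W586.SK

theorem cut : S_CUT := by
  intro n R hR
  refine ⟨fun x : E n => Real.smoothTransition (2 - ‖x‖ ^ 2 / R ^ 2), ?_, ?_, ?_, ?_⟩
  · exact Real.smoothTransition.contDiff.comp
      (contDiff_const.sub ((contDiff_norm_sq ℝ).div_const _))
  · refine HasCompactSupport.intro (isCompact_closedBall (0 : E n) (2 * R)) fun x hx => ?_
    apply Real.smoothTransition.zero_of_nonpos
    rw [mem_closedBall_zero_iff, not_le] at hx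
    have h1 : 2 ≤ ‖x‖ ^ 2 / R ^ 2 := by
      rw [le_div_iff₀ (by positivity)]
      nlinarith
    linarith
  · intro x hx
    have h1 : Real.smoothTransition (2 - ‖x‖ ^ 2 / R ^ 2) = 1 := by
      apply Real.smoothTransition.one_of_one_le
      have h2 : ‖x‖ ^ 2 / R ^ 2 ≤ 1 := by
        rw [div_le_one (by positivity)]
        exact pow_le_pow_left₀ (norm_nonneg x) hx 2
      linarith
    refine ⟨h1, ?_⟩
    apply IsLocalMax.fderiv_eq_zero
    refine Filter.Eventually.of_forall fun y => ?_
    simp only [h1]
    exact Real.smoothTransition.le_one _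
  · intro i x
    simp only [LinearIsometryEquiv.norm_map]

end Pool.Agent.W154.SK
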